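import Pool.Agent.Lib.MP_0a5adf_nt.H51.DomA

/-!
Module DOM (helper51), part 2: domination of the uniform measure by the weighted logarithmic measure.
-/

set_option autoImplicit false

namespace Pool.Agent.Lib.MP_0a5adf_nt.H51

open Finset
open Pool.Agent.Lib.MP_0a5adf_nt.TP
open Classical

/-- the typical `s` that are compatible with `M` at time `i` -/
noncomputable def Sc (L i D M : ℕ) : Finset ℕ := (typ i D).filter (fun s : ℕ =>
      (L : ℝ) - 1 ≤ Real.logb 2 M + i - th * s ∧ Real.logb 2 M + i - th * s < L + 2)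

lemma pc_nonneg (k i s : ℕ) (M : ℤ) : 0 ≤ Pc k i s M := by
  unfold Pc; positivity

lemma per_i (hU : UbdStatement) (hP : PathStatement) (hB : BadNStatement) (hM : MixStatement) {C4 : ℝ}
    (hC4 : 0 ≤ C4) (hJ : ∀ n c₁ : ℕ, 1 ≤ n → Josc n c₁ ≤ C4 / (n : ℝ) ^ 4) (d : Bool) {L D : ℕ} (B : Set ℕ)
    (hL : 1000 ≤ L) (hD : 1000 * D ≤ L) {i : ℕ} (hi0 : 6 * L / 10 ≤ i) (hi1 : i < 7 * L / 10) :
    (((Ico (2 ^ L) (2 ^ (L + 1))).filter (fun N => ∀ j ≤ L, (T d)^[j] N ∈ B)).card : ℝ) ≤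
      2 ^ L * (L * (2 * Real.exp (-((D : ℝ) ^ 2 / (2 * L))))) +
      2 ^ (L + 2) * (∑ M ∈ (blk (84 * L / 100) (5 * L / 100)).filter (fun M => M ∈ B), 1 / (M : ℝ) *
        ∑ s ∈ Sc L i D M, 3 ^ (L / 20) * Pc (L / 20) i s (sg d * M) + 160000 * C4 / L) := by
  set k := 84 * L / 100 with hk
  set l := 5 * L / 100 with hl
  set m := L / 20 with hm
  set W := (blk k l).filter (fun M => M ∈ B) with hW
  have hLr : (1000 : ℝ) ≤ L := by exact_mod_cast hL
  have hLpos : (0 : ℝ) < L := by linarith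
  have hiL : i ≤ L := by omega
  have hi600 : 1 ≤ i := by omega
  -- splitting
  have hsplit : (((Ico (2 ^ L) (2 ^ (L + 1))).filter (fun N => ∀ j ≤ L, (T d)^[j] N ∈ B)).card : ℝ) ≤
      (((Ico (2 ^ L) (2 ^ (L + 1))).filter
        fun N => ∃ j ≤ i, (D : ℝ) < |2 * (od d j N : ℝ) - j|).card : ℝ) +
      (((Ico (2 ^ L) (2 ^ (L + 1))).filter
        (fun N => |2 * (od d i N : ℝ) - i| ≤ D ∧ (T d)^[i] N ∈ W)).card : ℝ) := by
    rw [← Nat.cast_add]
    refine Nat.cast_le.2 ((Finset.card_le_card ?_).trans (Finset.card_union_le _ _))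
    intro N hN
    rw [Finset.mem_filter] at hN
    obtain ⟨hN1, hN2⟩ := hN
    rw [Finset.mem_union]
    by_cases hb : ∃ j ≤ i, (D : ℝ) < |2 * (od d j N : ℝ) - j|
    · left
      exact Finset.mem_filter.2 ⟨hN1, hb⟩
    · right
      push Not at hb
      have hbi := hb i le_rfl
      refine Finset.mem_filter.2 ⟨hN1, hbi, ?_⟩
      rw [hW, Finset.mem_filter]
      rw [Finset.mem_Ico] at hN1
      exact ⟨window hP hL hD hi0 hi1 hN1.1 hN1.2 hbi, hN2 i hiL⟩
  have hbad : (((Ico (2 ^ L) (2 ^ (L + 1))).filter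
        fun N => ∃ j ≤ i, (D : ℝ) < |2 * (od d j N : ℝ) - j|).card : ℝ) ≤
        2 ^ L * (L * (2 * Real.exp (-((D : ℝ) ^ 2 / (2 * L))))) := by
    refine (hB.1 d i L D hiL).trans ?_
    refine mul_le_mul_of_nonneg_left ?_ (by positivity)
    have h1 : (i : ℝ) + 1 ≤ L := by
      have : i + 1 ≤ L := by omega
      exact_mod_cast this
    have h2 : Real.exp (-((D : ℝ) ^ 2 / (2 * i))) ≤ Real.exp (-((D : ℝ) ^ 2 / (2 * L))) := by
      apply Real.exp_le_exp.2
      apply neg_le_neg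
      have hi : (0 : ℝ) < i := by exact_mod_cast hi600
      have hiL' : (i : ℝ) ≤ L := by exact_mod_cast hiL
      apply div_le_div_of_nonneg_left (by positivity) (by positivity)
      linarith
    exact mul_le_mul h1 (mul_le_mul_of_nonneg_left h2 (by norm_num)) (by positivity) (by positivity)
  have hgood := hU d L i D W (by omega)
  -- comparison of the densities
  have hcmp : ∑ M ∈ W, 1 / (M : ℝ) * ∑ s ∈ (typ i D).filter (fun s : ℕ =>
      (L : ℝ) - 1 ≤ Real.logb 2 M + i - th * s ∧ Real.logb 2 M + i - th * s < L + 2),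
        3 ^ s * Pc s i s (sg d * M) ≤
      ∑ M ∈ W, 1 / (M : ℝ) * ∑ s ∈ Sc L i D M, 3 ^ m * Pc m i s (sg d * M) + 160000 * C4 / L := by
    have h1 : ∀ M ∈ W, 1 / (M : ℝ) * ∑ s ∈ (typ i D).filter (fun s : ℕ =>
        (L : ℝ) - 1 ≤ Real.logb 2 M + i - th * s ∧ Real.logb 2 M + i - th * s < L + 2),
        3 ^ s * Pc s i s (sg d * M) ≤ 1 / (M : ℝ) * ∑ s ∈ Sc L i D M, 3 ^ m * Pc m i s (sg d * M) +
        ∑ s ∈ typ i D, 1 / (M : ℝ) * |3 ^ s * Pc s i s (sg d * M) - 3 ^ m * Pc m i s (sg d * M)| := by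
      intro M _
      have hs0 : ∑ s ∈ typ i D, 1 / (M : ℝ) * |3 ^ s * Pc s i s (sg d * M) - 3 ^ m * Pc m i s (sg d * M)| =
          1 / (M : ℝ) * ∑ s ∈ typ i D, |3 ^ s * Pc s i s (sg d * M) - 3 ^ m * Pc m i s (sg d * M)| :=
        (Finset.mul_sum _ _ _).symm
      rw [hs0, ← mul_add]
      refine mul_le_mul_of_nonneg_left ?_ (by positivity)
      calc ∑ s ∈ (typ i D).filter (fun s : ℕ =>
          (L : ℝ) - 1 ≤ Real.logb 2 M + i - th * s ∧ Real.logb 2 M + i - th * s < L + 2),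
          3 ^ s * Pc s i s (sg d * M)
          ≤ ∑ s ∈ Sc L i D M, (3 ^ m * Pc m i s (sg d * M) +
            |3 ^ s * Pc s i s (sg d * M) - 3 ^ m * Pc m i s (sg d * M)|) := by
            refine Finset.sum_le_sum (fun s _ => ?_)
            have := le_abs_self (3 ^ s * Pc s i s (sg d * M) - 3 ^ m * Pc m i s (sg d * M))
            linarith
        _ = ∑ s ∈ Sc L i D M, 3 ^ m * Pc m i s (sg d * M) +
            ∑ s ∈ Sc L i D M, |3 ^ s * Pc s i s (sg d * M) - 3 ^ m * Pc m i s (sg d * M)| :=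
            Finset.sum_add_distrib
        _ ≤ _ := by
            refine add_le_add_right ?_ _
            exact Finset.sum_le_sum_of_subset_of_nonneg (Finset.filter_subset _ _)
              (fun s _ _ => abs_nonneg _)
    refine (Finset.sum_le_sum h1).trans ?_
    rw [Finset.sum_add_distrib]
    refine add_le_add_right ?_ _
    calc ∑ M ∈ W, ∑ s ∈ typ i D, 1 / (M : ℝ) *
          |3 ^ s * Pc s i s (sg d * M) - 3 ^ m * Pc m i s (sg d * M)|
        ≤ ∑ M ∈ blk k l, ∑ s ∈ typ i D, 1 / (M : ℝ) *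
          |3 ^ s * Pc s i s (sg d * M) - 3 ^ m * Pc m i s (sg d * M)| :=
          Finset.sum_le_sum_of_subset_of_nonneg (Finset.filter_subset _ _)
            (fun M _ _ => Finset.sum_nonneg (fun s _ => by positivity))
      _ = ∑ s ∈ typ i D, ∑ M ∈ blk k l, 1 / (M : ℝ) *
          |3 ^ s * Pc s i s (sg d * M) - 3 ^ m * Pc m i s (sg d * M)| := Finset.sum_comm
      _ ≤ ∑ s ∈ typ i D, (160000 * C4 / (L : ℝ) ^ 2) := by
          refine Finset.sum_le_sum (fun s hs => ?_)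
          obtain ⟨ht1, ht2, ht3⟩ := typ_bounds hL hD hi0 hi1 hs
          refine (hM d m i s k l ht1 ht2).trans ?_
          have hj : ∑ n ∈ Ioc m s, Josc n (i + 1) ≤ L * (160000 * C4 / (L : ℝ) ^ 4) := by
            calc ∑ n ∈ Ioc m s, Josc n (i + 1) ≤ ∑ n ∈ Ioc m s, (160000 * C4 / (L : ℝ) ^ 4) := by
                  refine Finset.sum_le_sum (fun n hn => ?_)
                  rw [Finset.mem_Ioc] at hn
                  refine (hJ n (i + 1) (by omega)).trans ?_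
                  have hn20 : L ≤ 20 * n := by omega
                  have hn20r : (L : ℝ) ≤ 20 * n := by exact_mod_cast hn20
                  have hnpos : (0 : ℝ) < n := by
                    have : 0 < n := by omega
                    exact_mod_cast this
                  rw [div_le_div_iff₀ (by positivity) (by positivity)]
                  calc C4 * (L : ℝ) ^ 4 ≤ C4 * (20 * n) ^ 4 := by gcongr
                    _ = 160000 * C4 * n ^ 4 := by ring
              _ = ((Ioc m s).card : ℝ) * (160000 * C4 / (L : ℝ) ^ 4) := by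
                  rw [Finset.sum_const, nsmul_eq_mul]
              _ ≤ L * (160000 * C4 / (L : ℝ) ^ 4) := by
                  refine mul_le_mul_of_nonneg_right ?_ (by positivity)
                  rw [Nat.card_Ioc]
                  have : s - m ≤ L := by omega
                  exact_mod_cast this
          have hl1 : (l : ℝ) + 1 ≤ L := by
            have : l + 1 ≤ L := by omega
            exact_mod_cast this
          calc ((l : ℝ) + 1) * ∑ n ∈ Ioc m s, Josc n (i + 1)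
              ≤ ((l : ℝ) + 1) * (L * (160000 * C4 / (L : ℝ) ^ 4)) :=
                mul_le_mul_of_nonneg_left hj (by positivity)
            _ ≤ L * (L * (160000 * C4 / (L : ℝ) ^ 4)) :=
                mul_le_mul_of_nonneg_right hl1 (by positivity)
            _ = 160000 * C4 / (L : ℝ) ^ 2 := by
                field_simp
      _ = ((typ i D).card : ℝ) * (160000 * C4 / (L : ℝ) ^ 2) := by
          rw [Finset.sum_const, nsmul_eq_mul]
      _ ≤ L * (160000 * C4 / (L : ℝ) ^ 2) := by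
          refine mul_le_mul_of_nonneg_right ?_ (by positivity)
          have h2 : (typ i D).card ≤ i + 1 := by
            unfold typ
            exact (Finset.card_filter_le _ _).trans (by rw [Finset.card_range])
          have h3 : (typ i D).card ≤ L := by omega
          exact_mod_cast h3
      _ = 160000 * C4 / L := by
          field_simp
  calc _ ≤ _ := hsplit
    _ ≤ 2 ^ L * (L * (2 * Real.exp (-((D : ℝ) ^ 2 / (2 * L))))) + 2 ^ (L + 2) *
        (∑ M ∈ W, 1 / (M : ℝ) * ∑ s ∈ Sc L i D M, 3 ^ m * Pc m i s (sg d * M) + 160000 * C4 / L) := by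
        refine add_le_add hbad (hgood.trans ?_)
        exact mul_le_mul_of_nonneg_left hcmp (by positivity)

/-- the tail of the limiting density -/
lemma tail_le (hMass : MassStatement) (hPhi : PhiStatement) (d : Bool) (m k l i1 : ℕ) (h3 : 3 ^ m ≤ 2 ^ k) :
    ∑ M ∈ blk k l, 1 / (M : ℝ) * (3 ^ m * ∑ c ∈ Ico (4 * m + 1) i1, f m c ((sg d * M : ℤ) : ZMod (3 ^ m))) ≤
      ((l : ℝ) + 1) * (3 / 5 : ℝ) ^ m := by
  have h1 : ∀ c ∈ Ico (4 * m + 1) i1, ((Fam m c).card : ℝ) / 2 ^ c ≤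
      (2 / 3 : ℝ) ^ (4 * m + 1) * (((Fam m c).card : ℝ) * (3 / 4) ^ c) := by
    intro c hc
    have hc' := (Finset.mem_Ico.1 hc).1
    have h2 : (2 / 3 : ℝ) ^ c ≤ (2 / 3 : ℝ) ^ (4 * m + 1) :=
      pow_le_pow_of_le_one (by norm_num) (by norm_num) hc'
    have h4 : (1 : ℝ) / 2 ^ c = (2 / 3) ^ c * (3 / 4) ^ c := by
      rw [← mul_pow, show (2 / 3 : ℝ) * (3 / 4) = 1 / 2 by norm_num, one_div_pow]
    calc ((Fam m c).card : ℝ) / 2 ^ c = ((Fam m c).card : ℝ) * (1 / 2 ^ c) := by ring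
      _ = (2 / 3) ^ c * (((Fam m c).card : ℝ) * (3 / 4) ^ c) := by rw [h4]; ring
      _ ≤ _ := mul_le_mul_of_nonneg_right h2 (by positivity)
  calc _ = ∑ c ∈ Ico (4 * m + 1) i1, ∑ M ∈ blk k l,
        1 / (M : ℝ) * (3 ^ m * f m c ((sg d * M : ℤ) : ZMod (3 ^ m))) := by
        rw [Finset.sum_comm]
        refine Finset.sum_congr rfl (fun M _ => ?_)
        rw [Finset.mul_sum, Finset.mul_sum]
    _ ≤ ∑ c ∈ Ico (4 * m + 1) i1, ((l : ℝ) + 1) * (((Fam m c).card : ℝ) / 2 ^ c) :=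
        Finset.sum_le_sum (fun c _ => hPhi.2.1 d m c k l h3)
    _ ≤ ∑ c ∈ Ico (4 * m + 1) i1, ((l : ℝ) + 1) *
        ((2 / 3 : ℝ) ^ (4 * m + 1) * (((Fam m c).card : ℝ) * (3 / 4) ^ c)) :=
        Finset.sum_le_sum (fun c hc => mul_le_mul_of_nonneg_left (h1 c hc) (by positivity))
    _ = ((l : ℝ) + 1) * ((2 / 3 : ℝ) ^ (4 * m + 1) *
        ∑ c ∈ Ico (4 * m + 1) i1, (((Fam m c).card : ℝ) * (3 / 4) ^ c)) := by
        rw [Finset.mul_sum, Finset.mul_sum]
    _ ≤ ((l : ℝ) + 1) * ((2 / 3 : ℝ) ^ (4 * m + 1) *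
        ∑ c ∈ range i1, (((Fam m c).card : ℝ) * (3 / 4) ^ c)) := by
        refine mul_le_mul_of_nonneg_left (mul_le_mul_of_nonneg_left ?_ (by positivity)) (by positivity)
        refine Finset.sum_le_sum_of_subset_of_nonneg ?_ (fun c _ _ => by positivity)
        intro c hc
        exact Finset.mem_range.2 (Finset.mem_Ico.1 hc).2
    _ ≤ ((l : ℝ) + 1) * ((2 / 3 : ℝ) ^ (4 * m + 1) * ((3 / 4 : ℝ) / (1 - 3 / 4)) ^ m) := by
        refine mul_le_mul_of_nonneg_left (mul_le_mul_of_nonneg_left ?_ (by positivity)) (by positivity)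
        exact hMass.2.2 (3 / 4) m i1 (by norm_num) (by norm_num)
    _ ≤ ((l : ℝ) + 1) * (3 / 5 : ℝ) ^ m := by
        refine mul_le_mul_of_nonneg_left ?_ (by positivity)
        calc (2 / 3 : ℝ) ^ (4 * m + 1) * ((3 / 4 : ℝ) / (1 - 3 / 4)) ^ m
            = (2 / 3) * (16 / 27 : ℝ) ^ m := by
              rw [pow_succ, pow_mul, mul_comm _ (2 / 3 : ℝ), mul_assoc, ← mul_pow]
              norm_num
          _ ≤ 1 * (3 / 5 : ℝ) ^ m := by
              refine mul_le_mul (by norm_num) ?_ (by positivity) (by norm_num)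
              exact pow_le_pow_left₀ (by norm_num) (by norm_num) m
          _ = (3 / 5 : ℝ) ^ m := one_mul _

/-- the sum over the times -/
lemma main_sum (hS : PsplitStatement) (hMass : MassStatement) (hPhi : PhiStatement) {Cv : ℝ} (hCv : 0 ≤ Cv)
    (hV : ∀ (x : ℝ) (n : ℕ), ∑ u ∈ range n, ∑ v ∈ range (u + 1),
      (if x ≤ (u : ℝ) - th * v ∧ (u : ℝ) - th * v < x + 3 then (u.choose v : ℝ) / 2 ^ u else 0) ≤ Cv)
    (d : Bool) {L D : ℕ} (B : Set ℕ) (hL : 1000 ≤ L) (hD : 1000 * D ≤ L) :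
    ∑ i ∈ Ico (6 * L / 10) (7 * L / 10),
      ∑ M ∈ (blk (84 * L / 100) (5 * L / 100)).filter (fun M => M ∈ B), 1 / (M : ℝ) *
        ∑ s ∈ Sc L i D M, 3 ^ (L / 20) * Pc (L / 20) i s (sg d * M) ≤
      Cv * (Psi d B (L / 20) (84 * L / 100) (5 * L / 100) + ((L : ℝ) + 1) * (3 / 5 : ℝ) ^ (L / 20)) := by
  set k := 84 * L / 100 with hk
  set l := 5 * L / 100 with hl
  set m := L / 20 with hm
  set W := (blk k l).filter (fun M => M ∈ B) with hW
  have hmt : ∀ i ∈ Ico (6 * L / 10) (7 * L / 10), ∀ s ∈ typ i D, m ≤ s := by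
    intro i hi s hs
    rw [Finset.mem_Ico] at hi
    exact (typ_bounds hL hD hi.1 hi.2 hs).1
  have h3m : 3 ^ m ≤ 2 ^ k := by
    calc 3 ^ m ≤ 4 ^ m := Nat.pow_le_pow_left (by norm_num) _
      _ = 2 ^ (2 * m) := by rw [pow_mul]; norm_num
      _ ≤ 2 ^ k := Nat.pow_le_pow_right (by norm_num) (by omega)
  have h1 : ∀ M ∈ W, ∑ i ∈ Ico (6 * L / 10) (7 * L / 10), ∑ s ∈ Sc L i D M, Pc m i s (sg d * M) ≤
      Cv * ∑ c ∈ range (7 * L / 10), f m c ((sg d * M : ℤ) : ZMod (3 ^ m)) := by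
    intro M _
    exact sum_pc_le hS hV m _ _ D L (Real.logb 2 M) (sg d * M) hmt
  have h2 : ∀ M : ℕ, (3 : ℝ) ^ m * ∑ c ∈ range (7 * L / 10), f m c ((sg d * M : ℤ) : ZMod (3 ^ m)) =
      Phi m (sg d * M) + 3 ^ m * ∑ c ∈ Ico (4 * m + 1) (7 * L / 10), f m c ((sg d * M : ℤ) : ZMod (3 ^ m)) := by
    intro M
    unfold Phi
    rw [← mul_add, Finset.sum_range_add_sum_Ico _ (by omega)]
  calc _ = ∑ M ∈ W, 1 / (M : ℝ) * (3 ^ m * ∑ i ∈ Ico (6 * L / 10) (7 * L / 10),
        ∑ s ∈ Sc L i D M, Pc m i s (sg d * M)) := by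
        rw [Finset.sum_comm]
        refine Finset.sum_congr rfl (fun M _ => ?_)
        rw [Finset.mul_sum, Finset.mul_sum]
        refine Finset.sum_congr rfl (fun i _ => ?_)
        congr 1
        rw [Finset.mul_sum]
    _ ≤ ∑ M ∈ W, 1 / (M : ℝ) * (3 ^ m * (Cv * ∑ c ∈ range (7 * L / 10),
        f m c ((sg d * M : ℤ) : ZMod (3 ^ m)))) := by
        refine Finset.sum_le_sum (fun M hM => ?_)
        refine mul_le_mul_of_nonneg_left ?_ (by positivity)
        exact mul_le_mul_of_nonneg_left (h1 M hM) (by positivity)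
    _ = Cv * ∑ M ∈ W, (1 / (M : ℝ) * Phi m (sg d * M) + 1 / (M : ℝ) *
        (3 ^ m * ∑ c ∈ Ico (4 * m + 1) (7 * L / 10), f m c ((sg d * M : ℤ) : ZMod (3 ^ m)))) := by
        rw [Finset.mul_sum]
        refine Finset.sum_congr rfl (fun M _ => ?_)
        rw [← mul_add, ← h2 M]
        ring
    _ ≤ Cv * (Psi d B m k l + ((L : ℝ) + 1) * (3 / 5 : ℝ) ^ m) := by
        refine mul_le_mul_of_nonneg_left ?_ hCv
        rw [Finset.sum_add_distrib]
        refine add_le_add le_rfl ?_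
        calc _ ≤ ∑ M ∈ blk k l, 1 / (M : ℝ) * (3 ^ m * ∑ c ∈ Ico (4 * m + 1) (7 * L / 10),
              f m c ((sg d * M : ℤ) : ZMod (3 ^ m))) := by
              refine Finset.sum_le_sum_of_subset_of_nonneg (Finset.filter_subset _ _) (fun M _ _ => ?_)
              have : 0 ≤ ∑ c ∈ Ico (4 * m + 1) (7 * L / 10), f m c ((sg d * M : ℤ) : ZMod (3 ^ m)) :=
                Finset.sum_nonneg (fun c _ => f_nonneg _ _ _)
              positivity
          _ ≤ ((l : ℝ) + 1) * (3 / 5 : ℝ) ^ m := tail_le hMass hPhi d m k l _ h3m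
          _ ≤ ((L : ℝ) + 1) * (3 / 5 : ℝ) ^ m := by
              refine mul_le_mul_of_nonneg_right ?_ (by positivity)
              have : l ≤ L := by omega
              have : (l : ℝ) ≤ L := by exact_mod_cast this
              linarith

/-- the parameters are fine for large `L` -/
lemma params : ∃ L₀ : ℕ, ∀ L : ℕ, L₀ ≤ L → 1000 ≤ L ∧ 1000 * dev L ≤ L ∧
    (L : ℝ) * (2 * Real.exp (-((dev L : ℝ) ^ 2 / (2 * L)))) ≤ 1 / L ∧
    ((L : ℝ) + 1) * (3 / 5 : ℝ) ^ (L / 20) ≤ 1 := by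
  -- first: powers
  have h1 : ∀ᶠ x : ℝ in Filter.atTop, 2000 ≤ x ^ (2 / 5 : ℝ) :=
    (tendsto_rpow_atTop (by norm_num)).eventually_ge_atTop 2000
  have h2 : ∀ᶠ t : ℝ in Filter.atTop, t ^ 10 * Real.exp (-t) ≤ 1 / 2048 := by
    have := Real.tendsto_pow_mul_exp_neg_atTop_nhds_zero 10
    exact (this.eventually (eventually_le_nhds (by norm_num)))
  have h3 : ∀ᶠ x : ℝ in Filter.atTop, (x ^ (1 / 5 : ℝ) / 2) ^ 10 * Real.exp (-(x ^ (1 / 5 : ℝ) / 2)) ≤
      1 / 2048 := by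
    have ht : Filter.Tendsto (fun x : ℝ => x ^ (1 / 5 : ℝ) / 2) Filter.atTop Filter.atTop :=
      (tendsto_rpow_atTop (by norm_num)).atTop_div_const (by norm_num)
    exact ht.eventually h2
  have h4 : ∀ᶠ n : ℕ in Filter.atTop, (n : ℝ) * (3 / 5 : ℝ) ^ n ≤ 1 / 40 := by
    have := tendsto_self_mul_const_pow_of_lt_one (r := (3 / 5 : ℝ)) (by norm_num) (by norm_num)
    exact this.eventually (eventually_le_nhds (by norm_num))
  have h1' := (tendsto_natCast_atTop_atTop (R := ℝ)).eventually h1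
  have h3' := (tendsto_natCast_atTop_atTop (R := ℝ)).eventually h3
  obtain ⟨a1, ha1⟩ := Filter.eventually_atTop.1 h1'
  obtain ⟨a3, ha3⟩ := Filter.eventually_atTop.1 h3'
  obtain ⟨a4, ha4⟩ := Filter.eventually_atTop.1 h4
  refine ⟨2000 + a1 + a3 + 20 * a4, ?_⟩
  intro L hL
  have hL2 : (2000 : ℝ) ≤ L := by
    have : 2000 ≤ L := by omega
    exact_mod_cast this
  have hLpos : (0 : ℝ) < L := by linarith
  have e1 : 2000 ≤ (L : ℝ) ^ (2 / 5 : ℝ) := ha1 L (by omega)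
  have e3 := ha3 L (by omega)
  have e4 := ha4 (L / 20) (by omega)
  have hdev : (dev L : ℝ) ≤ (L : ℝ) ^ (3 / 5 : ℝ) + 1 := by
    unfold dev
    exact (Nat.ceil_lt_add_one (by positivity)).le
  have hdev0 : (L : ℝ) ^ (3 / 5 : ℝ) ≤ dev L := by
    unfold dev
    exact Nat.le_ceil _
  have hmul : (L : ℝ) ^ (3 / 5 : ℝ) * (L : ℝ) ^ (2 / 5 : ℝ) = L := by
    rw [← Real.rpow_add hLpos]
    norm_num
  have h35 : 0 < (L : ℝ) ^ (3 / 5 : ℝ) := Real.rpow_pos_of_pos hLpos _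
  refine ⟨by omega, ?_, ?_, ?_⟩
  · have : 1000 * (dev L : ℝ) ≤ L := by
      have h5 : 2000 * (L : ℝ) ^ (3 / 5 : ℝ) ≤ L := by
        calc 2000 * (L : ℝ) ^ (3 / 5 : ℝ) ≤ (L : ℝ) ^ (2 / 5 : ℝ) * (L : ℝ) ^ (3 / 5 : ℝ) :=
              mul_le_mul_of_nonneg_right e1 h35.le
          _ = L := by rw [mul_comm]; exact hmul
      linarith
    exact_mod_cast this
  · set t : ℝ := (L : ℝ) ^ (1 / 5 : ℝ) / 2 with ht
    have ht0 : 0 < t := by
      have := Real.rpow_pos_of_pos hLpos (1 / 5 : ℝ)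
      positivity
    have hLt : (L : ℝ) = (2 * t) ^ 5 := by
      have : 2 * t = (L : ℝ) ^ (1 / 5 : ℝ) := by rw [ht]; ring
      rw [this, ← Real.rpow_natCast, ← Real.rpow_mul hLpos.le]
      norm_num
    have h6 : t ≤ (dev L : ℝ) ^ 2 / (2 * L) := by
      rw [le_div_iff₀ (by positivity)]
      have h7 : ((L : ℝ) ^ (3 / 5 : ℝ)) ^ 2 ≤ (dev L : ℝ) ^ 2 := by
        exact pow_le_pow_left₀ h35.le hdev0 2
      refine le_trans (le_of_eq ?_) h7
      rw [← Real.rpow_natCast, ← Real.rpow_mul hLpos.le]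
      have : t * (2 * L) = (L : ℝ) ^ (1 / 5 : ℝ) * L := by rw [ht]; ring
      rw [this]
      nth_rewrite 2 [← Real.rpow_one (L : ℝ)]
      rw [← Real.rpow_add hLpos]
      norm_num
    have h8 : Real.exp (-((dev L : ℝ) ^ 2 / (2 * L))) ≤ Real.exp (-t) :=
      Real.exp_le_exp.2 (neg_le_neg h6)
    rw [le_div_iff₀ hLpos]
    calc (L : ℝ) * (2 * Real.exp (-((dev L : ℝ) ^ 2 / (2 * L)))) * L
        ≤ (L : ℝ) * (2 * Real.exp (-t)) * L := by gcongr
      _ = 2048 * (t ^ 10 * Real.exp (-t)) := by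
          rw [hLt]; ring
      _ ≤ 2048 * (1 / 2048) := mul_le_mul_of_nonneg_left e3 (by norm_num)
      _ = 1 := by norm_num
  · have h9 : (L : ℝ) + 1 ≤ 40 * ((L / 20 : ℕ) : ℝ) := by
      have : L + 1 ≤ 40 * (L / 20) := by omega
      exact_mod_cast this
    calc ((L : ℝ) + 1) * (3 / 5 : ℝ) ^ (L / 20) ≤ 40 * ((L / 20 : ℕ) : ℝ) * (3 / 5 : ℝ) ^ (L / 20) :=
          mul_le_mul_of_nonneg_right h9 (by positivity)
      _ = 40 * (((L / 20 : ℕ) : ℝ) * (3 / 5 : ℝ) ^ (L / 20)) := by ring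
      _ ≤ 40 * (1 / 40) := mul_le_mul_of_nonneg_left e4 (by norm_num)
      _ = 1 := by norm_num

lemma div_avg {n x a b r : ℝ} (hn : 0 < n) (hr : 0 < r) (hrn : r ≤ 20 * n) (hb : 0 ≤ b)
    (h : n * x ≤ n * a + b) : x ≤ a + b * (20 / r) := by
  have h1 : x - a ≤ b / n := (le_div_iff₀ hn).2 (by linarith)
  have h2 : b / n ≤ b * (20 / r) := by
    rw [div_eq_mul_one_div]
    refine mul_le_mul_of_nonneg_left ?_ hb
    rw [div_le_div_iff₀ hn hr]
    linarith
  linarith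

/-- DOM -/
theorem dom (hU : UbdStatement) (hP : PathStatement) (hB : BadNStatement) (hM : MixStatement)
    (hS : PsplitStatement) (hPhi : PhiStatement) (hV : VisitsStatement) (hJ : JoscStatement)
    (hMass : MassStatement) : DomStatement := by
  obtain ⟨Cv, hCv, hV⟩ := hV
  obtain ⟨C4, hC4, hJ⟩ := hJ 4
  obtain ⟨L₀, hL₀⟩ := params
  refine ⟨1 + 640000 * C4 + 80 * Cv, L₀, by positivity, ?_⟩
  intro d L B hL
  obtain ⟨hL1, hD, hE1, hE2⟩ := hL₀ L hL
  have hLr : (1000 : ℝ) ≤ L := by exact_mod_cast hL1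
  have hLpos : (0 : ℝ) < L := by linarith
  set D := dev L with hDdef
  set X := (Ico (2 ^ L) (2 ^ (L + 1))).filter (fun N => ∀ j ≤ L, (T d)^[j] N ∈ B) with hX
  have hXc : {N : ℕ | 2 ^ L ≤ N ∧ N < 2 ^ (L + 1) ∧ ∀ i ≤ L, (T d)^[i] N ∈ B}.ncard = X.card := by
    rw [← Set.ncard_coe_finset]
    congr 1
    ext N
    simp [hX, and_assoc]
  rw [hXc]
  set P := Psi d B (L / 20) (84 * L / 100) (5 * L / 100) with hPdef
  have hP0 : 0 ≤ P := by
    rw [hPdef]
    unfold Psi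
    refine Finset.sum_nonneg (fun M _ => ?_)
    exact mul_nonneg (by positivity) (hPhi.2.2.2.2 _ _)
  set I := Ico (6 * L / 10) (7 * L / 10) with hI
  have hIc : (L : ℝ) ≤ 20 * I.card := by
    rw [hI, Nat.card_Ico]
    have : L ≤ 20 * (7 * L / 10 - 6 * L / 10) := by omega
    exact_mod_cast this
  have hIpos : (0 : ℝ) < I.card := by linarith
  have hsum : (I.card : ℝ) * X.card ≤ I.card * (2 ^ L * (1 / L) + 2 ^ (L + 2) * (160000 * C4 / L)) +
      2 ^ (L + 2) * (Cv * (P + 1)) := by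
    calc (I.card : ℝ) * X.card = ∑ i ∈ I, (X.card : ℝ) := by rw [Finset.sum_const, nsmul_eq_mul]
      _ ≤ ∑ i ∈ I, (2 ^ L * (1 / L) +
          2 ^ (L + 2) * (∑ M ∈ (blk (84 * L / 100) (5 * L / 100)).filter (fun M => M ∈ B), 1 / (M : ℝ) *
          ∑ s ∈ Sc L i D M, 3 ^ (L / 20) * Pc (L / 20) i s (sg d * M) + 160000 * C4 / L)) := by
          refine Finset.sum_le_sum (fun i hi => ?_)
          rw [hI, Finset.mem_Ico] at hi
          refine (per_i hU hP hB hM hC4.le hJ d B hL1 hD hi.1 hi.2).trans ?_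
          refine add_le_add ?_ le_rfl
          exact mul_le_mul_of_nonneg_left hE1 (by positivity)
      _ = I.card * (2 ^ L * (1 / L) + 2 ^ (L + 2) * (160000 * C4 / L)) +
          2 ^ (L + 2) * ∑ i ∈ I, ∑ M ∈ (blk (84 * L / 100) (5 * L / 100)).filter (fun M => M ∈ B),
          1 / (M : ℝ) * ∑ s ∈ Sc L i D M, 3 ^ (L / 20) * Pc (L / 20) i s (sg d * M) := by
          rw [Finset.mul_sum, ← nsmul_eq_mul, ← Finset.sum_const, ← Finset.sum_add_distrib]
          refine Finset.sum_congr rfl (fun i _ => ?_)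
          ring
      _ ≤ _ := by
          refine add_le_add le_rfl (mul_le_mul_of_nonneg_left ?_ (by positivity))
          refine (main_sum hS hMass hPhi hCv.le hV d B hL1 hD).trans ?_
          refine mul_le_mul_of_nonneg_left ?_ hCv.le
          linarith
  have hfin : (X.card : ℝ) ≤ (2 ^ L * (1 / L) + 2 ^ (L + 2) * (160000 * C4 / L)) +
      2 ^ (L + 2) * (Cv * (P + 1)) * (20 / L) := by
    exact div_avg hIpos hLpos hIc (by positivity) hsum
  refine hfin.trans ?_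
  have e : (2 : ℝ) ^ (L + 2) = 4 * 2 ^ L := by rw [pow_add]; ring
  rw [e]
  have h2L : (0 : ℝ) < 2 ^ L := by positivity
  have : 2 ^ L * (1 / (L : ℝ)) + 4 * 2 ^ L * (160000 * C4 / L) + 4 * 2 ^ L * (Cv * (P + 1)) * (20 / L) =
      2 ^ L / L * (1 + 640000 * C4 + 80 * Cv * (1 + P)) := by
    field_simp
    ring
  rw [this]
  have e2 : 2 ^ L * ((1 + 640000 * C4 + 80 * Cv) / L) * (1 + P) =
      2 ^ L / L * ((1 + 640000 * C4 + 80 * Cv) * (1 + P)) := by ring
  rw [e2]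
  refine mul_le_mul_of_nonneg_left ?_ (by positivity)
  nlinarith

end Pool.Agent.Lib.MP_0a5adf_nt.H51
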