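import Pool.Agent.Lib.MP_0a5adf_nt.H51.Visits

/-!
Module DOM (helper51), part 1: the window, and the sum over times by visits.
-/

set_option autoImplicit false

namespace Pool.Agent.Lib.MP_0a5adf_nt.H51

open Finset
open Pool.Agent.Lib.MP_0a5adf_nt.TP
open Classical

lemma th_le : th ≤ 8 / 5 := by
  have h : 5 * th ≤ 8 := by
    unfold th
    have h1 : (5 : ℝ) * Real.logb 2 3 = Real.logb 2 (3 ^ 5) := by
      rw [Real.logb_pow]; norm_num
    have h2 : Real.logb 2 (2 ^ 8) = 8 := by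
      rw [Real.logb_pow, Real.logb_self_eq_one (by norm_num)]; norm_num
    rw [h1, ← h2]
    exact Real.logb_le_logb_of_le (by norm_num) (by norm_num) (by norm_num)
  linarith

lemma th_ge : 11 / 7 ≤ th := by
  have h : 11 ≤ 7 * th := by
    unfold th
    have h1 : (7 : ℝ) * Real.logb 2 3 = Real.logb 2 (3 ^ 7) := by
      rw [Real.logb_pow]; norm_num
    have h2 : Real.logb 2 (2 ^ 11) = 11 := by
      rw [Real.logb_pow, Real.logb_self_eq_one (by norm_num)]; norm_num
    rw [h1, ← h2]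
    exact Real.logb_le_logb_of_le (by norm_num) (by norm_num) (by norm_num)
  linarith

lemma mu_le : mu ≤ 3 / 14 := by
  unfold mu; linarith [th_ge]

lemma mu_ge : 1 / 5 ≤ mu := by
  unfold mu; linarith [th_le]

lemma window (hP : PathStatement) {d : Bool} {L i D N : ℕ} (hL : 1000 ≤ L) (hD : 1000 * D ≤ L)
    (hi0 : 6 * L / 10 ≤ i) (hi1 : i < 7 * L / 10) (hN0 : 2 ^ L ≤ N) (hN1 : N < 2 ^ (L + 1))
    (hod : |2 * (od d i N : ℝ) - i| ≤ D) : (T d)^[i] N ∈ blk (84 * L / 100) (5 * L / 100) := by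
  obtain ⟨h1, h2⟩ := hP d N i D L hN0 (by omega) hod
  have hLr : (1000 : ℝ) ≤ L := by exact_mod_cast hL
  have hDr : 1000 * (D : ℝ) ≤ L := by exact_mod_cast hD
  have hD0 : (0 : ℝ) ≤ D := Nat.cast_nonneg _
  have hi1r : 10 * (i : ℝ) ≤ 7 * L := by
    have : 10 * i ≤ 7 * L := by omega
    exact_mod_cast this
  have hi0r : 6 * (L : ℝ) ≤ 10 * i + 10 := by
    have : 6 * L ≤ 10 * i + 10 := by omega
    exact_mod_cast this
  have hi00 : (0 : ℝ) ≤ i := Nat.cast_nonneg _
  have hk1 : 100 * ((84 * L / 100 : ℕ) : ℝ) ≤ 84 * L := by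
    have : 100 * (84 * L / 100) ≤ 84 * L := Nat.mul_div_le _ _
    exact_mod_cast this
  have hkl : 89 * (L : ℝ) ≤ 100 * ((84 * L / 100 + 5 * L / 100 : ℕ) : ℝ) + 200 := by
    have : 89 * L ≤ 100 * (84 * L / 100 + 5 * L / 100) + 200 := by omega
    exact_mod_cast this
  have hmi1 : mu * i ≤ 3 / 20 * L := by
    calc mu * i ≤ 3 / 14 * i := mul_le_mul_of_nonneg_right mu_le hi00
      _ ≤ 3 / 20 * L := by linarith
  have hmi0 : 3 / 25 * (L : ℝ) - 1 / 5 ≤ mu * i := by
    calc 3 / 25 * (L : ℝ) - 1 / 5 ≤ 1 / 5 * i := by linarith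
      _ ≤ mu * i := mul_le_mul_of_nonneg_right mu_ge hi00
  have htD : th * D / 2 ≤ 1 / 1000 * L := by
    have : th * D ≤ 8 / 5 * D := mul_le_mul_of_nonneg_right th_le hD0
    linarith
  have htD0 : 0 ≤ th * D / 2 := by
    have : 0 ≤ th := by linarith [th_ge]
    positivity
  unfold blk
  rw [Finset.mem_Ico]
  constructor
  · have hN : (2 : ℝ) ^ ((L : ℝ) - 1) ≤ N / 2 := by
      rw [Real.rpow_sub (by norm_num), Real.rpow_one, Real.rpow_natCast]
      have : (2 : ℝ) ^ L ≤ N := by exact_mod_cast hN0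
      linarith
    have h3 : (2 : ℝ) ^ (84 * L / 100 : ℕ) ≤ (((T d)^[i] N : ℕ) : ℝ) := by
      refine le_trans ?_ h1
      calc (2 : ℝ) ^ (84 * L / 100 : ℕ) = (2 : ℝ) ^ ((84 * L / 100 : ℕ) : ℝ) := (Real.rpow_natCast _ _).symm
        _ ≤ (2 : ℝ) ^ (((L : ℝ) - 1) + (-(mu * i) - th * D / 2)) :=
            Real.rpow_le_rpow_of_exponent_le (by norm_num) (by linarith)
        _ = (2 : ℝ) ^ ((L : ℝ) - 1) * (2 : ℝ) ^ (-(mu * i) - th * D / 2) :=
            Real.rpow_add (by norm_num) _ _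
        _ ≤ N / 2 * (2 : ℝ) ^ (-(mu * i) - th * D / 2) :=
            mul_le_mul_of_nonneg_right hN (Real.rpow_nonneg (by norm_num) _)
    exact_mod_cast h3
  · have hN : 2 * (N : ℝ) < (2 : ℝ) ^ ((L : ℝ) + 2) := by
      have e : (2 : ℝ) ^ ((L : ℝ) + 2) = 2 * 2 ^ (L + 1) := by
        rw [show ((L : ℝ) + 2) = ((L + 2 : ℕ) : ℝ) by push_cast; ring, Real.rpow_natCast]
        ring
      rw [e]
      have : (N : ℝ) < 2 ^ (L + 1) := by exact_mod_cast hN1
      linarith
    have h3 : (((T d)^[i] N : ℕ) : ℝ) < (2 : ℝ) ^ (84 * L / 100 + 5 * L / 100 : ℕ) := by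
      refine lt_of_le_of_lt h2 ?_
      calc 2 * (N : ℝ) * (2 : ℝ) ^ (-(mu * i) + th * D / 2)
          < (2 : ℝ) ^ ((L : ℝ) + 2) * (2 : ℝ) ^ (-(mu * i) + th * D / 2) :=
            mul_lt_mul_of_pos_right hN (Real.rpow_pos_of_pos (by norm_num) _)
        _ = (2 : ℝ) ^ (((L : ℝ) + 2) + (-(mu * i) + th * D / 2)) :=
            (Real.rpow_add (by norm_num) _ _).symm
        _ ≤ (2 : ℝ) ^ ((84 * L / 100 + 5 * L / 100 : ℕ) : ℝ) :=
            Real.rpow_le_rpow_of_exponent_le (by norm_num) (by linarith)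
        _ = (2 : ℝ) ^ (84 * L / 100 + 5 * L / 100 : ℕ) := Real.rpow_natCast _ _
    exact_mod_cast h3

lemma typ_bounds {L i D s : ℕ} (hL : 1000 ≤ L) (hD : 1000 * D ≤ L)
    (hi0 : 6 * L / 10 ≤ i) (hi1 : i < 7 * L / 10) (hs : s ∈ typ i D) :
    L / 20 ≤ s ∧ 3 ^ s ≤ 2 ^ (84 * L / 100) ∧ s ≤ L := by
  unfold typ at hs
  rw [Finset.mem_filter, Finset.mem_range] at hs
  obtain ⟨h1, h2⟩ := hs
  rw [abs_le] at h2
  have h3 : i ≤ 2 * s + D := by
    have : (i : ℝ) ≤ 2 * s + D := by linarith [h2.1]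
    exact_mod_cast this
  have h4 : 2 * s ≤ i + D := by
    have : 2 * (s : ℝ) ≤ i + D := by linarith [h2.2]
    exact_mod_cast this
  refine ⟨by omega, ?_, by omega⟩
  calc 3 ^ s ≤ 4 ^ s := Nat.pow_le_pow_left (by norm_num) _
    _ = 2 ^ (2 * s) := by rw [pow_mul]; norm_num
    _ ≤ 2 ^ (84 * L / 100) := Nat.pow_le_pow_right (by norm_num) (by omega)

lemma f_nonneg (n c : ℕ) (X : ZMod (3 ^ n)) : 0 ≤ f n c X := by
  unfold f; positivity

lemma inner_le {Cv : ℝ} (hV : ∀ (x : ℝ) (n : ℕ), ∑ u ∈ range n, ∑ v ∈ range (u + 1),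
      (if x ≤ (u : ℝ) - th * v ∧ (u : ℝ) - th * v < x + 3 then (u.choose v : ℝ) / 2 ^ u else 0) ≤ Cv)
    (m i0 i1 D c : ℕ) (L x0 : ℝ) (hm : ∀ i ∈ Ico i0 i1, ∀ s ∈ typ i D, m ≤ s) :
    ∑ i ∈ Ico i0 i1, ∑ s ∈ (typ i D).filter (fun s : ℕ => L - 1 ≤ x0 + i - th * s ∧
      x0 + i - th * s < L + 2), (if c ≤ i then ((i - c).choose (s - m) : ℝ) / 2 ^ (i - c) else 0) ≤ Cv := by
  set x : ℝ := L - 1 - x0 - c + th * m with hx
  set F : ℕ → ℝ := fun u => ∑ v ∈ range (u + 1),
      (if x ≤ (u : ℝ) - th * v ∧ (u : ℝ) - th * v < x + 3 then (u.choose v : ℝ) / 2 ^ u else 0) with hF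
  have hF0 : ∀ u, 0 ≤ F u := by
    intro u
    refine Finset.sum_nonneg (fun v _ => ?_)
    split_ifs <;> positivity
  have h1 : ∀ i ∈ Ico i0 i1, ∑ s ∈ (typ i D).filter (fun s : ℕ => L - 1 ≤ x0 + i - th * s ∧
      x0 + i - th * s < L + 2), (if c ≤ i then ((i - c).choose (s - m) : ℝ) / 2 ^ (i - c) else 0) ≤
      if c ≤ i then F (i - c) else 0 := by
    intro i hi
    by_cases hc : c ≤ i
    · simp only [if_pos hc]
      set S := (typ i D).filter (fun s : ℕ => L - 1 ≤ x0 + i - th * s ∧ x0 + i - th * s < L + 2) with hS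
      have hinj : Set.InjOn (fun s : ℕ => s - m) (S : Set ℕ) := by
        intro s hs s' hs' h
        have h2 := hm i hi s (Finset.mem_filter.1 (Finset.mem_coe.1 hs)).1
        have h3 := hm i hi s' (Finset.mem_filter.1 (Finset.mem_coe.1 hs')).1
        simp only at h
        omega
      set g : ℕ → ℝ := fun v => if x ≤ ((i - c : ℕ) : ℝ) - th * v ∧ ((i - c : ℕ) : ℝ) - th * v < x + 3 then
        ((i - c).choose v : ℝ) / 2 ^ (i - c) else 0 with hg
      have hg0 : ∀ v, 0 ≤ g v := by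
        intro v
        rw [hg]
        simp only
        split_ifs <;> positivity
      calc ∑ s ∈ S, ((i - c).choose (s - m) : ℝ) / 2 ^ (i - c) = ∑ s ∈ S, g (s - m) := by
            refine Finset.sum_congr rfl (fun s hs => ?_)
            have hsm := hm i hi s (Finset.mem_filter.1 hs).1
            have hcond := (Finset.mem_filter.1 hs).2
            rw [hg]
            simp only
            rw [if_pos]
            rw [Nat.cast_sub hc, Nat.cast_sub hsm, hx]
            constructor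
            · linarith [hcond.1]
            · linarith [hcond.2]
        _ = ∑ v ∈ S.image (fun s => s - m), g v := (Finset.sum_image hinj).symm
        _ = ∑ v ∈ (S.image (fun s => s - m)).filter (fun v => v ∈ range (i - c + 1)), g v := by
            rw [Finset.sum_filter]
            refine Finset.sum_congr rfl (fun v _ => ?_)
            by_cases hv : v ∈ range (i - c + 1)
            · rw [if_pos hv]
            · rw [if_neg hv]
              rw [hg]
              simp only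
              have : (i - c).choose v = 0 := Nat.choose_eq_zero_of_lt (by
                rw [Finset.mem_range] at hv; omega)
              rw [this]
              simp
        _ ≤ ∑ v ∈ range (i - c + 1), g v := by
            refine Finset.sum_le_sum_of_subset_of_nonneg ?_ (fun v _ _ => hg0 v)
            intro v hv
            exact (Finset.mem_filter.1 hv).2
        _ = F (i - c) := rfl
    · simp only [if_neg hc, Finset.sum_const_zero, le_refl]
  calc _ ≤ ∑ i ∈ Ico i0 i1, (if c ≤ i then F (i - c) else 0) := Finset.sum_le_sum h1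
    _ = ∑ i ∈ (Ico i0 i1).filter (fun i => c ≤ i), F (i - c) := (Finset.sum_filter _ _).symm
    _ = ∑ u ∈ ((Ico i0 i1).filter (fun i => c ≤ i)).image (fun i => i - c), F u := by
        rw [Finset.sum_image]
        intro i hi i' hi' h
        have h2 := (Finset.mem_filter.1 (Finset.mem_coe.1 hi)).2
        have h3 := (Finset.mem_filter.1 (Finset.mem_coe.1 hi')).2
        simp only at h
        omega
    _ ≤ ∑ u ∈ range i1, F u := by
        refine Finset.sum_le_sum_of_subset_of_nonneg ?_ (fun v _ _ => hF0 v)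
        intro u hu
        obtain ⟨i, hi, rfl⟩ := Finset.mem_image.1 hu
        have h2 := (Finset.mem_Ico.1 (Finset.mem_filter.1 hi).1).2
        rw [Finset.mem_range]
        omega
    _ ≤ Cv := hV x i1

lemma sum_pc_le (hS : PsplitStatement) {Cv : ℝ} (hV : ∀ (x : ℝ) (n : ℕ), ∑ u ∈ range n, ∑ v ∈ range (u + 1),
      (if x ≤ (u : ℝ) - th * v ∧ (u : ℝ) - th * v < x + 3 then (u.choose v : ℝ) / 2 ^ u else 0) ≤ Cv)
    (m i0 i1 D : ℕ) (L x0 : ℝ) (M : ℤ) (hm : ∀ i ∈ Ico i0 i1, ∀ s ∈ typ i D, m ≤ s) :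
    ∑ i ∈ Ico i0 i1, ∑ s ∈ (typ i D).filter (fun s : ℕ => L - 1 ≤ x0 + i - th * s ∧
      x0 + i - th * s < L + 2), Pc m i s M ≤ Cv * ∑ c ∈ range i1, f m c (M : ZMod (3 ^ m)) := by
  have h1 : ∀ i ∈ Ico i0 i1, ∀ s ∈ typ i D, Pc m i s M = ∑ c ∈ range i1, f m c (M : ZMod (3 ^ m)) *
      (if c ≤ i then ((i - c).choose (s - m) : ℝ) / 2 ^ (i - c) else 0) := by
    intro i hi s hs
    rw [hS m i s M (hm i hi s hs)]
    have hii := (Finset.mem_Ico.1 hi).2
    have hr : range (i + 1) = (range i1).filter (fun c => c ≤ i) := by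
      ext c
      simp only [Finset.mem_range, Finset.mem_filter]
      omega
    rw [hr, Finset.sum_filter]
    refine Finset.sum_congr rfl (fun c _ => ?_)
    split_ifs <;> ring
  calc _ = ∑ i ∈ Ico i0 i1, ∑ s ∈ (typ i D).filter (fun s : ℕ => L - 1 ≤ x0 + i - th * s ∧
        x0 + i - th * s < L + 2), ∑ c ∈ range i1, f m c (M : ZMod (3 ^ m)) *
        (if c ≤ i then ((i - c).choose (s - m) : ℝ) / 2 ^ (i - c) else 0) := by
        refine Finset.sum_congr rfl (fun i hi => Finset.sum_congr rfl (fun s hs => ?_))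
        exact h1 i hi s (Finset.mem_filter.1 hs).1
    _ = ∑ c ∈ range i1, f m c (M : ZMod (3 ^ m)) * ∑ i ∈ Ico i0 i1, ∑ s ∈ (typ i D).filter
        (fun s : ℕ => L - 1 ≤ x0 + i - th * s ∧ x0 + i - th * s < L + 2),
        (if c ≤ i then ((i - c).choose (s - m) : ℝ) / 2 ^ (i - c) else 0) := by
        simp_rw [Finset.mul_sum]
        rw [Finset.sum_congr rfl (fun i _ => Finset.sum_comm)]
        exact Finset.sum_comm
    _ ≤ ∑ c ∈ range i1, f m c (M : ZMod (3 ^ m)) * Cv := by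
        refine Finset.sum_le_sum (fun c _ => mul_le_mul_of_nonneg_left ?_ (f_nonneg _ _ _))
        exact inner_le hV m i0 i1 D c L x0 hm
    _ = Cv * ∑ c ∈ range i1, f m c (M : ZMod (3 ^ m)) := by rw [← Finset.sum_mul, mul_comm]

end Pool.Agent.Lib.MP_0a5adf_nt.H51
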