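import Pool.Agent.Lib.MP_0a5adf_nt.TP.Interfaces

/-!
Module VISITS (helper51): expected number of visits of the walk to an interval of length 3.
-/

set_option autoImplicit false

namespace Pool.Agent.Lib.MP_0a5adf_nt.H51

open Finset
open Pool.Agent.Lib.MP_0a5adf_nt.TP

/-- indicator of `[0, 3)` -/
noncomputable def ind (t : ℝ) : ℝ := if 0 ≤ t ∧ t < 3 then 1 else 0

/-- contribution of time `u` -/
noncomputable def hv (u : ℕ) (z : ℝ) : ℝ :=
  ∑ v ∈ range (u + 1), (u.choose v : ℝ) / 2 ^ u * ind (z + u - th * v)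

/-- expected number of visits up to time `n` -/
noncomputable def gv (n : ℕ) (z : ℝ) : ℝ := ∑ u ∈ range n, hv u z

lemma hv_zero (z : ℝ) : hv 0 z = ind z := by
  simp [hv]

lemma hv_succ (u : ℕ) (z : ℝ) : hv (u + 1) z = (hv u (z + 1) + hv u (z + 1 - th)) / 2 := by
  unfold hv
  rw [Finset.sum_range_succ']
  have h1 : ∀ v ∈ range (u + 1), ((u + 1).choose (v + 1) : ℝ) / 2 ^ (u + 1) *
      ind (z + ((u + 1 : ℕ) : ℝ) - th * ((v + 1 : ℕ) : ℝ)) =
      (u.choose v : ℝ) / 2 ^ u * ind (z + 1 - th + u - th * v) / 2 +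
      (u.choose (v + 1) : ℝ) / 2 ^ u * ind (z + 1 + u - th * ((v + 1 : ℕ) : ℝ)) / 2 := by
    intro v _
    rw [Nat.choose_succ_succ]
    have e1 : z + ((u + 1 : ℕ) : ℝ) - th * ((v + 1 : ℕ) : ℝ) = z + 1 - th + u - th * v := by
      push_cast; ring
    have e2 : z + 1 + (u : ℝ) - th * ((v + 1 : ℕ) : ℝ) = z + 1 - th + u - th * v := by
      push_cast; ring
    rw [e1, e2]
    push_cast
    rw [pow_succ]
    field_simp
  rw [Finset.sum_congr rfl h1, Finset.sum_add_distrib]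
  have h2 : ∑ v ∈ range (u + 2), (u.choose v : ℝ) / 2 ^ u * ind (z + 1 + u - th * (v : ℝ)) / 2 =
      ∑ v ∈ range (u + 1), (u.choose v : ℝ) / 2 ^ u * ind (z + 1 + u - th * (v : ℝ)) / 2 := by
    rw [Finset.sum_range_succ]
    simp
  rw [Finset.sum_range_succ'] at h2
  have h3 : ((u + 1).choose 0 : ℝ) / 2 ^ (u + 1) * ind (z + ((u + 1 : ℕ) : ℝ) - th * ((0 : ℕ) : ℝ)) =
      (u.choose 0 : ℝ) / 2 ^ u * ind (z + 1 + u - th * ((0 : ℕ) : ℝ)) / 2 := by
    have e1 : z + ((u + 1 : ℕ) : ℝ) - th * ((0 : ℕ) : ℝ) = z + 1 + u - th * ((0 : ℕ) : ℝ) := by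
      push_cast; ring
    rw [e1]
    simp only [Nat.choose_zero_right, Nat.cast_one]
    rw [pow_succ]
    field_simp
  rw [h3, add_assoc, h2, ← Finset.sum_div, ← Finset.sum_div]
  ring

lemma gv_succ (n : ℕ) (z : ℝ) : gv (n + 1) z = ind z + (gv n (z + 1) + gv n (z + 1 - th)) / 2 := by
  unfold gv
  rw [Finset.sum_range_succ', hv_zero]
  rw [Finset.sum_congr rfl (fun u _ => hv_succ u z), ← Finset.sum_div, Finset.sum_add_distrib]
  ring

/-- the supersolution -/
noncomputable def psi (z : ℝ) : ℝ := min 1 ((2 : ℝ) ^ (-(z / 2)))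

lemma two_th : (2 : ℝ) ^ (th / 2) = √3 := by
  unfold th
  rw [Real.sqrt_eq_rpow, div_eq_mul_inv, Real.rpow_mul (by norm_num),
    Real.rpow_logb (by norm_num) (by norm_num) (by norm_num)]
  norm_num

lemma step_bound (z : ℝ) : ((2 : ℝ) ^ (-((z + 1) / 2)) + (2 : ℝ) ^ (-((z + 1 - th) / 2))) / 2 ≤
    966 / 1000 * (2 : ℝ) ^ (-(z / 2)) := by
  have e1 : (2 : ℝ) ^ (-((z + 1) / 2)) = (2 : ℝ) ^ (-(z / 2)) * (√2)⁻¹ := by
    have : -((z + 1) / 2) = -(z / 2) + -(1 / 2) := by ring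
    rw [this, Real.rpow_add (by norm_num), Real.rpow_neg (by norm_num) (1 / 2), ← Real.sqrt_eq_rpow]
  have e2 : (2 : ℝ) ^ (-((z + 1 - th) / 2)) = (2 : ℝ) ^ (-(z / 2)) * (√2)⁻¹ * √3 := by
    have : -((z + 1 - th) / 2) = -(z / 2) + -(1 / 2) + th / 2 := by ring
    rw [this, Real.rpow_add (by norm_num), Real.rpow_add (by norm_num), two_th,
      Real.rpow_neg (by norm_num) (1 / 2), ← Real.sqrt_eq_rpow]
  rw [e1, e2]
  have h2 : (14142 / 10000 : ℝ) ≤ √2 := Real.le_sqrt_of_sq_le (by norm_num)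
  have h3 : √3 ≤ (17321 / 10000 : ℝ) := Real.sqrt_le_iff.2 ⟨by norm_num, by norm_num⟩
  have hp : 0 < (2 : ℝ) ^ (-(z / 2)) := Real.rpow_pos_of_pos (by norm_num) _
  have h4 : (√2)⁻¹ * (1 + √3) / 2 ≤ 966 / 1000 := by
    rw [inv_mul_eq_div, div_div, div_le_iff₀ (by positivity)]
    nlinarith
  calc ((2 : ℝ) ^ (-(z / 2)) * (√2)⁻¹ + (2 : ℝ) ^ (-(z / 2)) * (√2)⁻¹ * √3) / 2
      = (2 : ℝ) ^ (-(z / 2)) * ((√2)⁻¹ * (1 + √3) / 2) := by ring
    _ ≤ (2 : ℝ) ^ (-(z / 2)) * (966 / 1000) := mul_le_mul_of_nonneg_left h4 hp.le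
    _ = 966 / 1000 * (2 : ℝ) ^ (-(z / 2)) := by ring

lemma psi_le_one (z : ℝ) : psi z ≤ 1 := min_le_left _ _

lemma super (z : ℝ) : ind z + (100 * psi (z + 1) + 100 * psi (z + 1 - th)) / 2 ≤ 100 * psi z := by
  by_cases hz : z < 0
  · have h1 : ind z = 0 := by
      unfold ind
      rw [if_neg]
      intro h; linarith [h.1]
    have h2 : psi z = 1 := by
      unfold psi
      rw [min_eq_left]
      exact Real.one_le_rpow (by norm_num) (by linarith)
    rw [h1, h2]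
    linarith [psi_le_one (z + 1), psi_le_one (z + 1 - th)]
  · push Not at hz
    have h2 : psi z = (2 : ℝ) ^ (-(z / 2)) := by
      unfold psi
      rw [min_eq_right]
      exact Real.rpow_le_one_of_one_le_of_nonpos (by norm_num) (by linarith)
    have h3 : psi (z + 1) ≤ (2 : ℝ) ^ (-((z + 1) / 2)) := min_le_right _ _
    have h4 : psi (z + 1 - th) ≤ (2 : ℝ) ^ (-((z + 1 - th) / 2)) := min_le_right _ _
    have h5 := step_bound z
    have hp : 0 < (2 : ℝ) ^ (-(z / 2)) := Real.rpow_pos_of_pos (by norm_num) _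
    by_cases hz3 : z < 3
    · have h6 : ind z ≤ 1 := by
        unfold ind; split_ifs <;> norm_num
      have h7 : (1 : ℝ) / 3 ≤ (2 : ℝ) ^ (-(z / 2)) := by
        have h8 : (2 : ℝ) ^ (-(3 / 2 : ℝ)) ≤ (2 : ℝ) ^ (-(z / 2)) :=
          Real.rpow_le_rpow_of_exponent_le (by norm_num) (by linarith)
        refine le_trans ?_ h8
        have h9 : (2 : ℝ) ^ (-(3 / 2 : ℝ)) = ((2 : ℝ) * √2)⁻¹ := by
          rw [Real.rpow_neg (by norm_num)]
          congr 1
          have : (3 / 2 : ℝ) = 1 + 1 / 2 := by norm_num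
          rw [this, Real.rpow_add (by norm_num), Real.rpow_one, ← Real.sqrt_eq_rpow]
        rw [h9, one_div]
        apply inv_anti₀ (by positivity)
        have : √2 ≤ 3 / 2 := Real.sqrt_le_iff.2 ⟨by norm_num, by norm_num⟩
        linarith
      rw [h2]
      nlinarith
    · have h6 : ind z = 0 := by
        unfold ind
        rw [if_neg]
        intro h; exact hz3 h.2
      rw [h6, h2]
      nlinarith

lemma gv_le (n : ℕ) : ∀ z : ℝ, gv n z ≤ 100 * psi z := by
  induction n with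
  | zero =>
    intro z
    have : 0 ≤ psi z := le_min (by norm_num) (Real.rpow_nonneg (by norm_num) _)
    simp only [gv, Finset.range_zero, Finset.sum_empty]
    positivity
  | succ n ih =>
    intro z
    rw [gv_succ]
    have h1 := ih (z + 1)
    have h2 := ih (z + 1 - th)
    have h3 := super z
    linarith

/-- VISITS -/
theorem visits : VisitsStatement := by
  refine ⟨100, by norm_num, ?_⟩
  intro x n
  have h := (gv_le n (-x)).trans (mul_le_mul_of_nonneg_left (psi_le_one (-x)) (by norm_num))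
  refine le_trans (le_of_eq ?_) (h.trans (by norm_num))
  unfold gv hv
  refine Finset.sum_congr rfl (fun u _ => Finset.sum_congr rfl (fun v _ => ?_))
  unfold ind
  by_cases hc : x ≤ (u : ℝ) - th * v ∧ (u : ℝ) - th * v < x + 3
  · rw [if_pos hc, if_pos ⟨by linarith [hc.1], by linarith [hc.2]⟩, mul_one]
  · rw [if_neg hc, if_neg, mul_zero]
    intro h'
    exact hc ⟨by linarith [h'.1], by linarith [h'.2]⟩

end Pool.Agent.Lib.MP_0a5adf_nt.H51
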